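import Pool.Agent.Helper84.OX.St

/-!
# Project OX (MP_2c90c1_al): module SPL (splitting of a set of cells)
-/

set_option autoImplicit false

namespace Pool.Agent.Helper18.OX

open Pool.Agent.Helper96.UT hiding StTOP TopV TopE tht Bd VC EC
open Pool.Agent.Helper96.GU Pool.Agent.Helper84.OX

private theorem card_split {T : Type} (V V₁ V₂ : Finset T) (h : ∀ x, x ∈ V ↔ x ∈ V₁ ∨ x ∈ V₂)
    (hd : ∀ x, x ∈ V₁ → x ∈ V₂ → False) : V.card = V₁.card + V₂.card := by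
  classical
  have e : V = V₁ ∪ V₂ := by
    ext x
    rw [Finset.mem_union]
    exact h x
  rw [e, Finset.card_union_of_disjoint]
  rw [Finset.disjoint_left]
  exact fun x h1 h2 => hd x h1 h2

private theorem out_split {T : Type} (V V₁ V₂ : Finset T) (h : ∀ x, x ∈ V ↔ x ∈ V₁ ∨ x ∈ V₂)
    (hd : ∀ x, x ∈ V₁ → x ∈ V₂ → False) (Zv : Set T) :
    (out V Zv).card = (out V₁ Zv).card + (out V₂ Zv).card := by
  refine card_split _ _ _ (fun x => ?_) (fun x h1 h2 => hd x (mem_out.1 h1).1 (mem_out.1 h2).1)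
  rw [mem_out, mem_out, mem_out, h x]
  tauto

/-- **SPL** -/
theorem hSPL : StSPL := by
  intro α Z Ω _ D D₁ D₂ J hD hJ h1 h2 Zv Ze
  have hD1 : ∀ u ∈ D₁, act u Z.s = u := fun u hu => hD u ((h1 u).1 hu).1
  have hD2 : ∀ u ∈ D₂, act u Z.s = u := fun u hu => hD u ((h2 u).1 hu).1
  have hsp : ∀ u, u ∈ D ↔ u ∈ D₁ ∨ u ∈ D₂ := by
    intro u
    rw [h1, h2]
    tauto
  refine ⟨out_split _ _ _ (fun x => ?_) (fun x a b => ?_) Zv,
    out_split _ _ _ (fun x => ?_) (fun x a b => ?_) Ze, card_split _ _ _ hsp (fun x a b => ?_)⟩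
  · rw [mem_VC' Z D hD, mem_VC' Z D₁ hD1, mem_VC' Z D₂ hD2]
    constructor
    · rintro ⟨u, hu, k, hk⟩
      rcases (hsp u).1 hu with h | h
      · exact Or.inl ⟨u, h, k, hk⟩
      · exact Or.inr ⟨u, h, k, hk⟩
    · rintro (⟨u, hu, k, hk⟩ | ⟨u, hu, k, hk⟩)
      · exact ⟨u, (hsp u).2 (Or.inl hu), k, hk⟩
      · exact ⟨u, (hsp u).2 (Or.inr hu), k, hk⟩
  · obtain ⟨u, hu, k, hk⟩ := (mem_VC' Z D₁ hD1 x).1 a
    obtain ⟨u', hu', k', hk'⟩ := (mem_VC' Z D₂ hD2 x).1 b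
    obtain ⟨m1, m2⟩ := (h1 u).1 hu
    obtain ⟨m1', m2'⟩ := (h2 u').1 hu'
    apply m2'
    rw [← hJ u' m1' k', hk', ← hk, hJ u m1 k]
    exact m2
  · rw [mem_EC' Z D hD, mem_EC' Z D₁ hD1, mem_EC' Z D₂ hD2]
    constructor
    · rintro ⟨u, hu, k, hk⟩
      rcases (hsp u).1 hu with h | h
      · exact Or.inl ⟨u, h, k, hk⟩
      · exact Or.inr ⟨u, h, k, hk⟩
    · rintro (⟨u, hu, k, hk⟩ | ⟨u, hu, k, hk⟩)
      · exact ⟨u, (hsp u).2 (Or.inl hu), k, hk⟩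
      · exact ⟨u, (hsp u).2 (Or.inr hu), k, hk⟩
  · obtain ⟨u, hu, k, hk⟩ := (mem_EC' Z D₁ hD1 x).1 a
    obtain ⟨u', hu', k', hk'⟩ := (mem_EC' Z D₂ hD2 x).1 b
    obtain ⟨m1, m2⟩ := (h1 u).1 hu
    obtain ⟨m1', m2'⟩ := (h2 u').1 hu'
    apply m2'
    rcases ed_eq (hk.trans hk'.symm) with ⟨e1, -⟩ | ⟨e1, -⟩
    · rw [← hJ u' m1' k', e1, hJ u m1 k]
      exact m2
    · rw [act_pre_succ] at e1
      rw [← hJ u' m1' k', e1, hJ u m1 (k + 1)]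
      exact m2
  · exact ((h2 x).1 b).2 ((h1 x).1 a).2

end Pool.Agent.Helper18.OX
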